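import Pool.Agent.D0H39.NG.Stm2

/-! Project NG (helper39), module NG24 (helper65). -/

set_option autoImplicit false

open Set Filter Topology Metric Function
open scoped ContDiff RealInnerProductSpace NNReal

namespace Pool.Agent.D0H65.NG

open Pool.Agent.D0H39.NG

theorem t_FTAN : S_FTAN := by
  intro m k N F κ Λ h hΛ w hw
  obtain ⟨κ', hκ', h1, h2⟩ := h.inv w
  have hκ'w : κ' (κ w) = w := h1.self_of_nhds
  have hdκ : HasFDerivAt κ (fderiv ℝ κ w) w :=
    (h.smooth.differentiable (by simp)).differentiableAt.hasFDerivAt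
  have hdκ' : HasFDerivAt κ' (fderiv ℝ κ' (κ w)) (κ w) :=
    (hκ'.differentiable (by simp)).differentiableAt.hasFDerivAt
  -- the left inverse
  have hleft : ∀ a, fderiv ℝ κ' (κ w) (fderiv ℝ κ w a) = a := by
    intro a
    have h3 : HasFDerivAt (fun y => κ' (κ y)) ((fderiv ℝ κ' (κ w)).comp (fderiv ℝ κ w)) w :=
      hdκ'.comp w hdκ
    have h4 : HasFDerivAt (fun y => κ' (κ y)) (ContinuousLinearMap.id ℝ (E k × E k)) w :=
      (hasFDerivAt_id w).congr_of_eventuallyEq h1
    exact DFunLike.congr_fun (h3.unique h4) a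
  -- the right inverse on the tangent vectors
  have hright : ∀ b, IsTan Λ (κ w) b → fderiv ℝ κ w (fderiv ℝ κ' (κ w) b) = b := by
    rintro b ⟨c, c1, c2, c3, c4⟩
    have hc : HasDerivAt c b 0 := by
      rw [← c4]
      exact (c1.differentiableAt (by simp)).hasDerivAt
    have hcc : Tendsto c (𝓝 0) (𝓝 (κ w)) := by
      rw [← c3]
      exact c1.continuousAt
    have h5 : HasDerivAt (fun t => κ' (c t)) (fderiv ℝ κ' (κ w) b) 0 := by
      have h6 : HasFDerivAt κ' (fderiv ℝ κ' (κ w)) (c 0) := by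
        rw [c3]
        exact hdκ'
      exact h6.comp_hasDerivAt 0 hc
    have h7 : HasDerivAt (fun t => κ (κ' (c t))) (fderiv ℝ κ w (fderiv ℝ κ' (κ w) b)) 0 := by
      have h8 : HasFDerivAt κ (fderiv ℝ κ w) (κ' (c 0)) := by
        rw [c3, hκ'w]
        exact hdκ
      exact h8.comp_hasDerivAt 0 h5
    have h9 : ∀ᶠ t in 𝓝 (0 : ℝ), κ (κ' (c t)) = c t := by
      filter_upwards [hcc.eventually h2, c2] with t ht1 ht2
      exact ht1 (hΛ ht2)
    have h10 : HasDerivAt (fun t => κ (κ' (c t))) b 0 := hc.congr_of_eventuallyEq h9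
    exact h7.unique h10
  have hback : ∀ b, IsTan Λ (κ w) b → IsTan (κ ⁻¹' Λ) w (fderiv ℝ κ' (κ w) b) := by
    intro b hb
    have h3 := hb.image (S' := κ ⁻¹' Λ) (Φ := κ') hκ'.contDiffAt (by
      filter_upwards [h2] with y hy hyΛ
      show κ (κ' y) ∈ Λ
      rw [hy (hΛ hyΛ)]
      exact hyΛ)
    rwa [hκ'w] at h3
  refine ⟨fun a => ⟨fun ha => ha.image' h.smooth fun y hy => hy, fun ha => ?_⟩, fun b hb =>
    ⟨_, hright b hb⟩⟩
  have h3 := hback _ ha
  rwa [hleft] at h3

end Pool.Agent.D0H65.NG
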