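import Pool.Agent.D0H65.NG.Fom
import Pool.Agent.D0H65.NG.Ftan

/-! Project NG (helper39), module NG27 (helper65). -/

set_option autoImplicit false

open Set Filter Topology Metric Function
open scoped ContDiff RealInnerProductSpace NNReal

namespace Pool.Agent.D0H65.NG

open Pool.Agent.D0H39.NG

section

variable {m k : ℕ} {N : Set (E m)} {F : E k → E m} {κ : E k × E k → E m × E m}
  {Λ : Set (E m × E m)}

theorem flat_inj (h : IsFlat k N F κ) (w a : E k × E k) (ha : fderiv ℝ κ w a = 0) : a = 0 := by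
  obtain ⟨κ', hκ', h1, -⟩ := h.inv w
  have hdκ : HasFDerivAt κ (fderiv ℝ κ w) w :=
    (h.smooth.differentiable (by simp)).differentiableAt.hasFDerivAt
  have hdκ' : HasFDerivAt κ' (fderiv ℝ κ' (κ w)) (κ w) :=
    (hκ'.differentiable (by simp)).differentiableAt.hasFDerivAt
  have h3 : HasFDerivAt (fun y => κ' (κ y)) ((fderiv ℝ κ' (κ w)).comp (fderiv ℝ κ w)) w :=
    hdκ'.comp w hdκ
  have h4 : HasFDerivAt (fun y => κ' (κ y)) (ContinuousLinearMap.id ℝ (E k × E k)) w :=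
    (hasFDerivAt_id w).congr_of_eventuallyEq h1
  have h5 : fderiv ℝ κ' (κ w) (fderiv ℝ κ w a) = a := DFunLike.congr_fun (h3.unique h4) a
  rw [ha, map_zero] at h5
  exact h5.symm

theorem flat_vert (h : IsFlat k N F κ) (w : E k × E k) (a : E k) :
    fderiv ℝ κ w (0, a) = (0, (fderiv ℝ κ w (0, a)).2) := by
  apply Prod.ext
  · rw [flat_base h]
    exact map_zero _
  · rfl

theorem flat_vert' (h : IsFlat k N F κ) (w a : E k × E k) (ha : (fderiv ℝ κ w a).1 = 0) :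
    a.1 = 0 := by
  rw [flat_base h] at ha
  exact h.par.imm _ _ ha

/-- vertical tangencies correspond -/
theorem vert_iff (h : IsFlat k N F κ) (hΛ : Λ ⊆ CT N) {w : E k × E k} (hw : κ w ∈ Λ) :
    IsVertical (κ ⁻¹' Λ) w ↔ IsVertical Λ (κ w) := by
  obtain ⟨h1, h2⟩ := t_FTAN m k N F κ Λ h hΛ w hw
  constructor
  · rintro ⟨a, ha0, ha⟩
    have h3 := (h1 _).1 ha
    rw [flat_vert h] at h3
    refine ⟨_, ?_, h3⟩
    intro h4
    have h5 : fderiv ℝ κ w (0, a) = 0 := by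
      rw [flat_vert h, h4]
      rfl
    have h6 := flat_inj h w (0, a) h5
    exact ha0 (congrArg Prod.snd h6)
  · rintro ⟨b, hb0, hb⟩
    obtain ⟨a, ha⟩ := h2 _ hb
    have h3 : a.1 = 0 := flat_vert' h w a (by rw [ha])
    have h4 : IsTan (κ ⁻¹' Λ) w a := (h1 a).2 (by rw [ha]; exact hb)
    have h5 : a = (0, a.2) := Prod.ext h3 rfl
    refine ⟨a.2, ?_, ?_⟩
    · intro h6
      rw [h6] at h5
      have h7 : fderiv ℝ κ w a = 0 := by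
        rw [h5]
        exact map_zero _
      rw [h7] at ha
      exact hb0 (congrArg Prod.snd ha).symm
    · rw [← h5]
      exact h4

/-- the points of `Λ` near `κ w₀` -/
theorem near_inv (h : IsFlat k N F κ) (hΛ : Λ ⊆ CT N) (w₀ : E k × E k) :
    ∃ κ' : E m × E m → E k × E k, Continuous κ' ∧ ∀ r : ℝ, 0 < r → ∃ δ : ℝ, 0 < δ ∧
      ∀ y ∈ Λ, ‖y - κ w₀‖ < δ → κ (κ' y) = y ∧ ‖κ' y - w₀‖ < r := by
  obtain ⟨κ', hκ', h1, h2⟩ := h.inv w₀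
  refine ⟨κ', hκ'.continuous, fun r hr => ?_⟩
  have hκ'w : κ' (κ w₀) = w₀ := h1.self_of_nhds
  have h3 : ∀ᶠ y in 𝓝 (κ w₀), ‖κ' y - w₀‖ < r := by
    have h4 : Tendsto (fun y => ‖κ' y - w₀‖) (𝓝 (κ w₀)) (𝓝 ‖κ' (κ w₀) - w₀‖) :=
      ((hκ'.continuous.sub continuous_const).norm).tendsto _
    rw [hκ'w, sub_self, norm_zero] at h4
    exact h4.eventually (eventually_lt_nhds hr)
  obtain ⟨δ, hδ, hδ'⟩ := Metric.eventually_nhds_iff.1 (h2.and h3)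
  refine ⟨δ, hδ, fun y hy hyd => ?_⟩
  have h5 := hδ' (y := y) (by rw [dist_eq_norm]; exact hyd)
  exact ⟨h5.1 (hΛ hy), h5.2⟩

theorem near_fwd (h : IsFlat k N F κ) (w₀ : E k × E k) (r : ℝ) (hr : 0 < r) :
    ∃ δ : ℝ, 0 < δ ∧ ∀ w, ‖w - w₀‖ < δ → ‖κ w - κ w₀‖ < r := by
  have h1 : Tendsto (fun w => ‖κ w - κ w₀‖) (𝓝 w₀) (𝓝 ‖κ w₀ - κ w₀‖) :=
    ((h.smooth.continuous.sub continuous_const).norm).tendsto _
  rw [sub_self, norm_zero] at h1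
  obtain ⟨δ, hδ, hδ'⟩ := Metric.eventually_nhds_iff.1 (h1.eventually (eventually_lt_nhds hr))
  exact ⟨δ, hδ, fun w hw => hδ' (by rw [dist_eq_norm]; exact hw)⟩

end

/-- **NG27.** -/
theorem t_FPT (hFEST : S_FEST) : S_FPT := by
  intro m k N F κ Λ h hLag w₀ hw₀
  have hΛ := hLag.sub
  obtain ⟨κ', hκ'c, hnear⟩ := near_inv (Λ := Λ) h hΛ w₀
  refine ⟨vert_iff h hΛ hw₀, ?_, ?_, ?_, ?_, ?_⟩
  · -- simple
    intro hs a b ha hb
    obtain ⟨h1, h2⟩ := t_FTAN m k N F κ Λ h hΛ w₀ hw₀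
    have ha' := (h1 _).1 ha
    have hb' := (h1 _).1 hb
    rw [flat_vert h] at ha' hb'
    obtain ⟨s, t, hst, h3⟩ := hs _ _ ha' hb'
    refine ⟨s, t, hst, ?_⟩
    have h4 : fderiv ℝ κ w₀ (0, s • a + t • b) = 0 := by
      have h5 : ((0 : E k), s • a + t • b) = s • ((0 : E k), a) + t • ((0 : E k), b) := by
        apply Prod.ext
        · simp
        · simp
      rw [h5, map_add, map_smul, map_smul, flat_vert h w₀ a, flat_vert h w₀ b]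
      apply Prod.ext
      · simp
      · exact h3
    exact congrArg Prod.snd (flat_inj h w₀ _ h4)
  · -- signed
    intro ε hε
    obtain ⟨C₁, r₁, hC₁, hr₁, hest⟩ := hFEST m k N F κ h w₀
    have hε1 : |ε| = 1 := by rcases hε with rfl | rfl <;> simp
    constructor
    · rintro ⟨C, r, hr, hC⟩
      obtain ⟨δ, hδ, hδ'⟩ := hnear (min r r₁) (lt_min hr hr₁)
      refine ⟨(|C| + C₁) * C₁ ^ 2, δ, hδ, fun y hy hyd b hb => ?_⟩
      obtain ⟨hκy, hyr⟩ := hδ' y hy hyd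
      obtain ⟨w, hw⟩ : ∃ w, w = κ' y := ⟨_, rfl⟩
      rw [← hw] at hκy hyr
      have hwΛ : κ w ∈ Λ := by rw [hκy]; exact hy
      obtain ⟨h1, h2⟩ := t_FTAN m k N F κ Λ h hΛ w hwΛ
      rw [← hκy] at hb
      obtain ⟨a, ha⟩ := h2 b hb
      have hta : IsTan (κ ⁻¹' Λ) w a := (h1 a).2 (by rw [ha]; exact hb)
      have h3 := hC w hwΛ (hyr.trans_le (min_le_left _ _)) a hta
      obtain ⟨h4, h5, h6⟩ := hest w (hyr.trans_le (min_le_right _ _)) a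
      rw [ha] at h4 h5 h6
      have h7 : ε * ⟪a.1, a.2⟫ - ε * ⟪b.1, b.2⟫ ≤ C₁ * ‖a.1‖ ^ 2 := by
        calc ε * ⟪a.1, a.2⟫ - ε * ⟪b.1, b.2⟫ = -(ε * (⟪b.1, b.2⟫ - ⟪a.1, a.2⟫)) := by ring
          _ ≤ |ε * (⟪b.1, b.2⟫ - ⟪a.1, a.2⟫)| := neg_le_abs _
          _ = |⟪b.1, b.2⟫ - ⟪a.1, a.2⟫| := by rw [abs_mul, hε1, one_mul]
          _ ≤ _ := h4
      have h8 : -|C| * ‖a.1‖ ^ 2 ≤ -C * ‖a.1‖ ^ 2 := by
        apply mul_le_mul_of_nonneg_right _ (sq_nonneg _)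
        linarith [le_abs_self C]
      have h9 : ‖a.1‖ ^ 2 ≤ C₁ ^ 2 * ‖b.1‖ ^ 2 := by
        rw [← mul_pow]
        exact pow_le_pow_left₀ (norm_nonneg _) h6 2
      have h10 : (|C| + C₁) * ‖a.1‖ ^ 2 ≤ (|C| + C₁) * (C₁ ^ 2 * ‖b.1‖ ^ 2) :=
        mul_le_mul_of_nonneg_left h9 (by positivity)
      nlinarith
    · rintro ⟨C, r, hr, hC⟩
      obtain ⟨δ, hδ, hδ'⟩ := near_fwd h w₀ r hr
      refine ⟨|C| * C₁ ^ 2 + C₁, min δ r₁, lt_min hδ hr₁, fun w hw hwd a ha => ?_⟩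
      have hwΛ : κ w ∈ Λ := hw
      obtain ⟨h1, h2⟩ := t_FTAN m k N F κ Λ h hΛ w hwΛ
      have h3 := hC (κ w) hwΛ (hδ' w (hwd.trans_le (min_le_left _ _))) _ ((h1 a).1 ha)
      obtain ⟨h4, h5, h6⟩ := hest w (hwd.trans_le (min_le_right _ _)) a
      obtain ⟨b, hb⟩ : ∃ b, b = fderiv ℝ κ w a := ⟨_, rfl⟩
      rw [← hb] at h3 h4 h5 h6
      have h7 : ε * ⟪b.1, b.2⟫ - ε * ⟪a.1, a.2⟫ ≤ C₁ * ‖a.1‖ ^ 2 := by
        calc ε * ⟪b.1, b.2⟫ - ε * ⟪a.1, a.2⟫ = ε * (⟪b.1, b.2⟫ - ⟪a.1, a.2⟫) := by ring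
          _ ≤ |ε * (⟪b.1, b.2⟫ - ⟪a.1, a.2⟫)| := le_abs_self _
          _ = |⟪b.1, b.2⟫ - ⟪a.1, a.2⟫| := by rw [abs_mul, hε1, one_mul]
          _ ≤ _ := h4
      have h8 : -|C| * ‖b.1‖ ^ 2 ≤ -C * ‖b.1‖ ^ 2 := by
        apply mul_le_mul_of_nonneg_right _ (sq_nonneg _)
        linarith [le_abs_self C]
      have h9 : ‖b.1‖ ^ 2 ≤ C₁ ^ 2 * ‖a.1‖ ^ 2 := by
        rw [← mul_pow]
        exact pow_le_pow_left₀ (norm_nonneg _) h5 2
      have h10 : |C| * ‖b.1‖ ^ 2 ≤ |C| * (C₁ ^ 2 * ‖a.1‖ ^ 2) :=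
        mul_le_mul_of_nonneg_left h9 (abs_nonneg _)
      nlinarith
  · -- injective
    rintro ⟨r, hr, hi⟩
    obtain ⟨δ, hδ, hδ'⟩ := near_fwd h w₀ r hr
    refine ⟨δ, hδ, fun w hw w' hw' hwd hwd' hww => ?_⟩
    apply h.inj
    apply hi _ hw _ hw' (hδ' w hwd) (hδ' w' hwd')
    rw [h.base, h.base, hww]
  · -- thin
    intro ht r hr
    obtain ⟨δ, hδ, hδ'⟩ := hnear r hr
    obtain ⟨W, hWo, hzW, hWr, hWc⟩ := ht δ hδ
    refine ⟨κ ⁻¹' W ∩ {w | ‖w - w₀‖ < r}, ?_, ⟨hzW, ?_⟩, fun w hw => hw.2, ?_⟩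
    · apply (hWo.preimage h.smooth.continuous).inter
      exact isOpen_lt (by fun_prop) continuous_const
    · show ‖w₀ - w₀‖ < r
      rw [sub_self, norm_zero]
      exact hr
    · have heq : {w | w ∈ κ ⁻¹' Λ ∧ w ∈ κ ⁻¹' W ∩ {w | ‖w - w₀‖ < r} ∧ ¬ IsVertical (κ ⁻¹' Λ) w} =
          κ' '' {y | y ∈ Λ ∧ y ∈ W ∧ ¬ IsVertical Λ y} := by
        ext w
        constructor
        · rintro ⟨h1, ⟨h2, -⟩, h3⟩
          refine ⟨κ w, ⟨h1, h2, fun h4 => h3 ((vert_iff h hΛ h1).2 h4)⟩, ?_⟩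
          apply h.inj
          exact (hδ' (κ w) h1 (hWr _ h2)).1
        · rintro ⟨y, ⟨h1, h2, h3⟩, rfl⟩
          obtain ⟨h4, h5⟩ := hδ' y h1 (hWr _ h2)
          have h6 : κ (κ' y) ∈ Λ := by rw [h4]; exact h1
          refine ⟨h6, ⟨?_, h5⟩, fun h7 => h3 ?_⟩
          · show κ (κ' y) ∈ W
            rw [h4]
            exact h2
          · have h8 := (vert_iff h hΛ h6).1 h7
            rwa [h4] at h8
      rw [heq]
      exact hWc.image _ hκ'c.continuousOn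
  · -- vertical near the point
    rintro ⟨δ, hδ, hv⟩
    obtain ⟨δ', hδ', hδ''⟩ := hnear δ hδ
    refine ⟨δ', hδ', fun y hy hyd => ?_⟩
    obtain ⟨h1, h2⟩ := hδ'' y hy hyd
    have h3 : κ (κ' y) ∈ Λ := by rw [h1]; exact hy
    have h4 := (vert_iff h hΛ h3).1 (hv _ h3 h2)
    rwa [h1] at h4

end Pool.Agent.D0H65.NG
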