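import Pool.Agent.D0H39.NG.Stm2
import Pool.Agent.D0H70.NG.Om

/-! Project NG (helper39), module NG23 (helper65). -/

set_option autoImplicit false
set_option maxSynthPendingDepth 3

open Set Filter Topology Metric Function
open scoped ContDiff RealInnerProductSpace NNReal

namespace Pool.Agent.D0H65.NG

open Pool.Agent.D0H39.NG Pool.Agent.D0H70.NG

theorem flat_base {m k : ℕ} {N : Set (E m)} {F : E k → E m} {κ : E k × E k → E m × E m}
    (h : IsFlat k N F κ) (w a : E k × E k) : (fderiv ℝ κ w a).1 = fderiv ℝ F w.1 a.1 := by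
  have hκ : HasFDerivAt κ (fderiv ℝ κ w) w :=
    (h.smooth.differentiable (by simp)).differentiableAt.hasFDerivAt
  have hF : HasFDerivAt F (fderiv ℝ F w.1) w.1 :=
    (h.par.smooth.differentiable (by simp)).differentiableAt.hasFDerivAt
  have h1 : HasFDerivAt (fun y => (κ y).1)
      ((ContinuousLinearMap.fst ℝ (E m) (E m)).comp (fderiv ℝ κ w)) w := hκ.fst
  have h2 : HasFDerivAt (fun y : E k × E k => F y.1)
      ((fderiv ℝ F w.1).comp (ContinuousLinearMap.fst ℝ (E k) (E k))) w :=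
    hF.comp w hasFDerivAt_fst
  have h3 : (fun y => (κ y).1) = fun y : E k × E k => F y.1 := funext h.base
  rw [h3] at h1
  exact DFunLike.congr_fun (h1.unique h2) a

theorem flat_lam {m k : ℕ} {N : Set (E m)} {F : E k → E m} {κ : E k × E k → E m × E m}
    (h : IsFlat k N F κ) (w a : E k × E k) :
    (⟪(κ w).2, (fderiv ℝ κ w a).1⟫ : ℝ) = ⟪w.2, a.1⟫ := by
  rw [flat_base h, h.lam]

/-- **NG23.** -/
theorem t_FOM : S_FOM := by
  intro m k N F κ h w a b
  obtain ⟨L, hL⟩ : ∃ L : ℝ × ℝ →L[ℝ] E k × E k,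
    L = (ContinuousLinearMap.fst ℝ ℝ ℝ).smulRight a + (ContinuousLinearMap.snd ℝ ℝ ℝ).smulRight b :=
    ⟨_, rfl⟩
  have hLa : L (1, 0) = a := by rw [hL]; simp
  have hLb : L (0, 1) = b := by rw [hL]; simp
  obtain ⟨γ, hγ⟩ : ∃ γ : ℝ × ℝ → E k × E k, γ = fun y => w + L y := ⟨_, rfl⟩
  have hγc : ContDiff ℝ ∞ γ := by
    rw [hγ]
    exact contDiff_const.add L.contDiff
  have hγ0 : γ (0, 0) = w := by
    rw [hγ]
    show w + L (0, 0) = w
    have : L (0, 0) = 0 := map_zero L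
    rw [this, add_zero]
  have hγd : ∀ y v, fderiv ℝ γ y v = L v := by
    intro y v
    have h1 : HasFDerivAt γ L y := by
      rw [hγ]
      exact L.hasFDerivAt.const_add w
    rw [h1.fderiv]
  have hκγ : ContDiff ℝ ∞ (κ ∘ γ) := h.smooth.comp hγc
  have e1 : ∀ y v, fderiv ℝ (κ ∘ γ) y v = fderiv ℝ κ (γ y) (fderiv ℝ γ y v) := by
    intro y v
    have h1 : HasFDerivAt κ (fderiv ℝ κ (γ y)) (γ y) :=
      (h.smooth.differentiable (by simp)).differentiableAt.hasFDerivAt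
    have h2 : HasFDerivAt γ (fderiv ℝ γ y) y :=
      (hγc.differentiable (by simp)).differentiableAt.hasFDerivAt
    rw [(h1.comp y h2).fderiv]
    rfl
  have key : ∀ v : ℝ × ℝ, (fun y => (⟪((κ ∘ γ) y).2, (fderiv ℝ (κ ∘ γ) y v).1⟫ : ℝ)) =
      fun y => (⟪(γ y).2, (fderiv ℝ γ y v).1⟫ : ℝ) := by
    intro v
    funext y
    rw [e1]
    exact flat_lam h (γ y) (fderiv ℝ γ y v)
  have o1 := surf_om (κ ∘ γ) hκγ (0, 0) (0, 1) (1, 0)
  have o2 := surf_om γ hγc (0, 0) (0, 1) (1, 0)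
  rw [key, key, e1, e1, hγ0, hγd, hγd, hLa, hLb] at o1
  rw [hγd, hγd, hLa, hLb] at o2
  exact o1.symm.trans o2

end Pool.Agent.D0H65.NG
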